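import Pool.Agent.H38.ER.Defs

/-!
Straight-line realizations of linear hypergraphs, and collinearity logic with groups.
-/

namespace Pool.Agent.H38.Hyp

/-- Any two distinct listed sets share at most one element. -/
def Linear (E : List (List ℕ)) : Prop :=
  ∀ e ∈ E, ∀ f ∈ E, e.toFinset ≠ f.toFinset → (e.toFinset ∩ f.toFinset).card ≤ 1

/-- A linear hypergraph on the vertices `0, …, n - 1` of rank at most `k`; each hyperedge is given
by a list of its vertices and has at least two elements. -/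
def LinH (k : ℕ) (p : ℕ × List (List ℕ)) : Prop :=
  (∀ e ∈ p.2, (∀ v ∈ e, v < p.1) ∧ 2 ≤ e.toFinset.card ∧ e.toFinset.card ≤ k) ∧ Linear p.2

/-- The hypergraph has a straight-line realization. -/
def Realizable (p : ℕ × List (List ℕ)) : Prop :=
  ∃ x : Fin p.1 → ℝ × ℝ, Function.Injective x ∧
    ∀ e ∈ p.2, ∃ a b : ℝ × ℝ, ∀ v, x v ∈ segment ℝ a b ↔ v.val ∈ e

/-- An instance of collinearity logic with groups of at most `k` variables: a list of groups and
a list of negative atoms. -/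
def Groups (k : ℕ) (p : List (List ℕ) × List (ℕ × ℕ × ℕ)) : Prop :=
  (∀ G ∈ p.1, G.toFinset.card ≤ k) ∧ Linear p.1

/-- All atoms can be satisfied by points of the plane. -/
def ColSat (p : List (List ℕ) × List (ℕ × ℕ × ℕ)) : Prop :=
  ∃ x : ℕ → ℝ × ℝ, (∀ G ∈ p.1, ∀ a ∈ G, ∀ b ∈ G, ∀ c ∈ G, Collinear ℝ {x a, x b, x c}) ∧
    ∀ t ∈ p.2, ¬ Collinear ℝ {x t.1, x t.2.1, x t.2.2}

end Pool.Agent.H38.Hyp
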