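import Pool.Agent.H38.Hyp.Red
import Pool.Agent.H38.Hyp.Defs

/-!
Rank three linear hypergraphs and collinearity logic with groups of size three.
-/

namespace Pool.Agent.H38.Hyp

open Pool.Agent.H38.NP Pool.Agent.H38.ER Filter

theorem line_cx {u v w : ℝ × ℝ} {α β γ : ℝ} (h0 : α ≠ 0 ∨ β ≠ 0) (a : α * u.1 + β * u.2 + γ = 0)
    (b : α * v.1 + β * v.2 + γ = 0) (c : α * w.1 + β * w.2 + γ = 0) : cx u v w = 0 := by
  unfold cx
  rcases h0 with h0 | h0 <;> refine mul_left_cancel₀ h0 ?_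
  · linear_combination (w.2 - u.2) * (b - a) - (v.2 - u.2) * (c - a)
  · linear_combination (v.1 - u.1) * (c - a) - (w.1 - u.1) * (b - a)

theorem col_iff {u v w : ℝ × ℝ} : Collinear ℝ {u, v, w} ↔ cx u v w = 0 := by
  rw [collinear_iff_of_mem (p₀ := u) (by simp)]
  refine ⟨fun ⟨d, h⟩ => ?_, fun h => ?_⟩
  · obtain ⟨r, rfl⟩ := h v (by simp)
    obtain ⟨s, rfl⟩ := h w (by simp)
    simp [cx]; ring
  · by_cases e : u = v
    · refine ⟨w - u, ?_⟩
      rintro _ (rfl | rfl | rfl)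
      exacts [⟨0, by simp⟩, ⟨0, by simp [e]⟩, ⟨1, by simp⟩]
    · obtain ⟨s, rfl⟩ := par2 e h
      refine ⟨v - u, ?_⟩
      rintro _ (rfl | rfl | rfl)
      exacts [⟨0, by simp⟩, ⟨1, by simp⟩, ⟨s, by ext <;> simp [add_comm]⟩]

def chk (E : List (List ℕ)) : Bool := E.all fun e => decide e.Nodup &&
  E.all fun f => e.all (f.contains ·) || decide (e.countP (f.contains ·) ≤ 1)

theorem lin_chk {E : List (List ℕ)} (h3 : ∀ e ∈ E, e.length = 3) (h : chk E = true) :
    (∀ e ∈ E, e.toFinset.card = 3) ∧ Linear E := by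
  simp only [chk, List.all_eq_true, Bool.and_eq_true, decide_eq_true_eq, Bool.or_eq_true,
    List.contains_iff_mem] at h
  have c : ∀ e ∈ E, e.toFinset.card = 3 := fun e he => by
    rw [List.toFinset_card_of_nodup (h e he).1, h3 e he]
  refine ⟨c, fun e he f hf hne => ?_⟩
  rcases (h e he).2 f hf with k | k
  · exact absurd (Finset.eq_of_subset_of_card_le (fun v hv => by simpa using k v (by simpa using hv))
      (by rw [c e he, c f hf])) hne
  · rw [List.countP_eq_length_filter] at k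
    refine le_trans (Finset.card_le_card fun v hv => ?_) ((List.toFinset_card_le _).trans k)
    simpa using hv

theorem SR.chk {p} (hb : ∀ e ∈ p.2, ∀ v ∈ e, v < p.1) (h : SR p) : chk p.2 = true := by
  obtain ⟨y, h1, h2⟩ := h
  simp only [Hyp.chk, List.all_eq_true, Bool.and_eq_true, decide_eq_true_eq, Bool.or_eq_true,
    List.contains_iff_mem]
  refine fun e he => ⟨(h2 e he).1, fun f hf => or_iff_not_imp_right.2 fun k v hv => ?_⟩
  rw [List.countP_eq_length_filter, ← List.toFinset_card_of_nodup ((h2 e he).1.filter _), not_le,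
    Finset.one_lt_card] at k
  obtain ⟨a, ha, b, hb', hab⟩ := k
  simp only [List.mem_toFinset, List.mem_filter, List.contains_iff_mem] at ha hb'
  obtain ⟨-, α, β, γ, k0, k1⟩ := h2 e he
  obtain ⟨-, α', β', γ', -, k2⟩ := h2 f hf
  have a1 := hb e he a ha.1
  have b1 := hb e he b hb'.1
  have v1 := hb e he v hv
  exact (k2 v v1).1 (off_cx (h1 a a1 b b1 hab) ((k2 a a1).2 ha.2) ((k2 b b1).2 hb'.2)
    (line_cx k0 ((k1 a a1).2 ha.1) ((k1 b b1).2 hb'.1) ((k1 v v1).2 hv)))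

def fano7 : ℕ × List (List ℕ) :=
  (7, [[3, 4, 0], [5, 6, 0], [3, 5, 1], [4, 6, 1], [3, 6, 2], [4, 5, 2], [0, 1, 2]])

theorem fano7_not : ¬ WR fano7 := fun ⟨x, T, h1, h2, h3⟩ =>
  q_s h2 id (fun _ h => h) (fun i hi j hj h _ => h1 i hi j hj h)
    (by simp only [fano7, List.forall_mem_cons] at h3; simp [Sem.sat, mkT, edQ, sH, h3])
    (h2.col 0 (by decide) 1 (by decide) 2 (by decide) (h3 _ (by decide)))

theorem lin_erh : ERH (fun p => (∀ e ∈ p.2, ∀ v ∈ e, v < p.1) ∧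
    ((∀ e ∈ p.2, e.toFinset.card = 3) ∧ Linear p.2) ∧ (WR p → SR p)) WR := by
  refine hyp_erh.reduce (fun p => cond (chk p.2) p fano7) (by unfold chk; fun_prop) ?_
  rintro p ⟨h1, h2⟩
  cases h : chk p.2
  · rw [cond_false]
    exact ⟨⟨by decide, lin_chk (by decide) (by decide), fun h => absurd h fano7_not⟩,
      iff_of_false (fun k => by simp [(h2 k).chk fun e he => (h1 e he).2] at h) fano7_not⟩
  · exact ⟨⟨fun e he => (h1 e he).2, lin_chk (fun e he => (h1 e he).1) h, h2⟩, Iff.rfl⟩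

theorem seg_cx {a b u v w : ℝ × ℝ} (hu : u ∈ segment ℝ a b) (hv : v ∈ segment ℝ a b)
    (hw : w ∈ segment ℝ a b) : cx u v w = 0 := by
  rw [segment_eq_image'] at hu hv hw
  obtain ⟨r, -, rfl⟩ := hu
  obtain ⟨s, -, rfl⟩ := hv
  obtain ⟨t, -, rfl⟩ := hw
  simp [cx]; ring

theorem Realizable.wr {p} (h : Realizable p) : WR p := by
  obtain ⟨x, h1, h2⟩ := h
  let y : ℕ → ℝ × ℝ := fun i => if h : i < p.1 then x ⟨i, h⟩ else 0
  have e : ∀ i (h : i < p.1), y i = x ⟨i, h⟩ := fun i h => dif_pos h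
  refine ⟨y, fun l => ∃ a b, ∀ v, x v ∈ segment ℝ a b ↔ v.val ∈ l, fun i hi j hj h k => ?_,
    ⟨fun i hi j hj k hk ⟨a, b, h⟩ => ?_, fun e f g ⟨_, _, he⟩ ⟨_, _, hf⟩ ⟨_, _, hg⟩ a ha b hb c hc
      k1 k2 k3 h => ?_⟩, h2⟩
  · rw [e i hi, e j hj] at k; exact h (congrArg Fin.val (h1 k))
  · rw [e i hi, e j hj, e k hk]
    exact seg_cx ((h _).2 (by simp)) ((h _).2 (by simp)) ((h _).2 (by simp))
  · simp only [y, dif_pos ha, dif_pos hb, dif_pos hc] at h
    rcases (col_iff.2 h).wbtw_or_wbtw_or_wbtw with h | h | h <;> rw [← mem_segment_iff_wbtw] at h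
    · exact k3.2.2 ((hg ⟨b, hb⟩).1 ((convex_segment _ _).segment_subset ((hg _).2 k3.1)
        ((hg _).2 k3.2.1) h))
    · exact k1.2.2 ((he ⟨c, hc⟩).1 ((convex_segment _ _).segment_subset ((he _).2 k1.2.1)
        ((he _).2 k1.1) h))
    · exact k2.2.2 ((hf ⟨a, ha⟩).1 ((convex_segment _ _).segment_subset ((hf _).2 k2.2.1)
        ((hf _).2 k2.1) h))

theorem SR.real {p} (h : SR p) : Realizable p := by
  obtain ⟨y, h1, h2⟩ := h
  refine ⟨fun v => y v, fun u v h => by_contra fun k => h1 u u.2 v v.2 (fun e => k (Fin.ext e)) h,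
    fun e he => ?_⟩
  obtain ⟨-, α, β, γ, h0, h⟩ := h2 e he
  have d : 0 < α ^ 2 + β ^ 2 := by rcases h0 with h | h <;> positivity
  obtain ⟨K, hK⟩ := (Set.finite_range fun v : Fin p.1 => |α * (y v).2 - β * (y v).1|).bddAbove
  have K1 : ∀ v : Fin p.1, |α * (y v).2 - β * (y v).1| < |K| + 1 := fun v =>
    (hK ⟨v, rfl⟩).trans_lt (by linarith [le_abs_self K])
  have K0 : 0 < |K| + 1 := by positivity
  generalize |K| + 1 = M at *
  refine ⟨((-α * γ + β * M) / (α ^ 2 + β ^ 2), (-β * γ - α * M) / (α ^ 2 + β ^ 2)),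
    ((-α * γ - β * M) / (α ^ 2 + β ^ 2), (-β * γ + α * M) / (α ^ 2 + β ^ 2)), fun v => ?_⟩
  rw [← h v v.2, segment_eq_image']
  refine ⟨fun ⟨s, _, e⟩ => ?_, fun e => ⟨(α * (y v).2 - β * (y v).1 + M) / (2 * M), ?_, ?_⟩⟩
  · simp only at e
    rw [← e]; simp; field_simp; ring
  · have := abs_lt.1 (K1 v)
    exact ⟨div_nonneg (by linarith) (by positivity), (div_le_one (by positivity)).2 (by linarith)⟩
  · ext <;> simp <;> field_simp
    · linear_combination -2 * M * α * e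
    · linear_combination -2 * M * β * e

theorem real_erh : ERH (LinH 3) Realizable :=
  lin_erh.mono fun _ ⟨h1, ⟨h2, h3⟩, h4⟩ =>
    ⟨⟨fun e he => ⟨h1 e he, by rw [h2 e he]; omega, (h2 e he).le⟩, h3⟩,
      fun h => (h4 h).real, Realizable.wr⟩

def negs (p : ℕ × List (List ℕ)) : List (ℕ × ℕ × ℕ) :=
  ((List.range p.1).flatMap fun i => ((List.range p.1).filter fun j => j != i).map fun j =>
    (i, j, p.1)) ++ p.2.flatMap fun e => e.flatMap fun a => (e.filter fun b => b != a).flatMap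
      fun b => ((List.range p.1).filter fun c => !e.contains c).map fun c => (a, b, c)

theorem col_erh : ERH (Groups 3) ColSat := by
  refine lin_erh.reduce (fun p => (p.2, negs p)) (by unfold negs; fun_prop) ?_
  rintro p ⟨h1, ⟨h2, h3⟩, h4⟩
  simp only [ColSat, negs, List.forall_mem_append, List.forall_mem_flatMap, List.forall_mem_map,
    List.mem_filter, List.mem_range, bne_iff_ne, and_imp, col_iff, Bool.not_eq_true',
    List.contains_eq_mem, decide_eq_false_iff_not]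
  refine ⟨⟨fun e he => (h2 e he).le, h3⟩, fun h => ?_, fun ⟨x, k1, k2, k3⟩ =>
    ⟨x, (· ∈ p.2), fun i hi j hj h => (ne_cx (k2 i hi j hj h.symm)).1,
      ⟨fun i _ j _ k _ h => k1 _ h i (by simp) j (by simp) k (by simp),
        fun e f g he _ _ a _ b _ c hc l1 l2 _ => k3 e he a l1.1 b l1.2.1
          (by rintro rfl; exact l2.2.2 l2.1) c hc l1.2.2⟩, fun _ h => h⟩⟩
  obtain ⟨y, k1, k2⟩ := h4 h
  obtain ⟨t, ht⟩ := (ev_lt fun i hi => ev_lt fun j hj => (show ∀ᶠ t in cofinite, j ≠ i →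
      ip (cr (lf (y i)) (lf (y j))) (lf (0 + t, 0 + t ^ 2)) ≠ 0 from by
    by_cases e : j = i
    · simp [e]
    · exact (ip_ev (cr_ne.2 (np_lf (k1 i hi j hj (Ne.symm e)))) 0 0 1 one_ne_zero).mono
        fun _ h _ => h)).exists
  let x : ℕ → ℝ × ℝ := fun i => if i < p.1 then y i else (0 + t, 0 + t ^ 2)
  have e : ∀ i < p.1, x i = y i := fun i h => if_pos h
  refine ⟨x, fun G hG a ha b hb c hc => ?_, fun i hi j hj hij => ?_,
    fun G hG a ha b hb hab c hc hc' k => ?_⟩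
  · obtain ⟨-, α, β, γ, h0, h⟩ := k2 G hG
    rw [e a (h1 G hG a ha), e b (h1 G hG b hb), e c (h1 G hG c hc)]
    exact line_cx h0 ((h a (h1 G hG a ha)).2 ha) ((h b (h1 G hG b hb)).2 hb)
      ((h c (h1 G hG c hc)).2 hc)
  · rw [e i hi, e j hj, show x p.1 = _ from if_neg (lt_irrefl _), ← det_lf, ← ip_cr]
    exact ht i hi j hj hij
  · obtain ⟨-, α, β, γ, h0, h⟩ := k2 G hG
    have a1 := h1 G hG a ha
    have b1 := h1 G hG b hb
    rw [e a a1, e b b1, e c hc] at k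
    exact hc' ((h c hc).1 (off_cx (k1 a a1 b b1 (Ne.symm hab)) ((h a a1).2 ha) ((h b b1).2 hb) k))

end Pool.Agent.H38.Hyp
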