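import Pool.Agent.H38.ER.Strong3

/-!
Desargues and complete quadrangle gadgets placed generically.
-/

namespace Pool.Agent.H38.Hyp

open Pool.Agent.H38.NP Pool.Agent.H38.ER Filter

def cr (a b : V3) : V3 :=
  (a.2.1 * b.2.2 - a.2.2 * b.2.1, a.2.2 * b.1 - a.1 * b.2.2, a.1 * b.2.1 - a.2.1 * b.1)

theorem ip_cr (a b c) : ip (cr a b) c = det3 a b c := by simp only [ip, cr, det3]; ring

theorem cr_ne {a b} : cr a b ≠ 0 ↔ NP a b := by
  simp only [v3_ne, cr, NP, sub_ne_zero]; grind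

theorem np_det {a b c} (h : det3 a b c ≠ 0) : NP a b :=
  cr_ne.1 fun e => h (by rw [← ip_cr, e]; simp [ip])

theorem np_self (a) : ¬ NP a a := by simpa using np_smul 1 a

theorem np_ip {n u v} (h1 : ip n u ≠ 0) (h2 : ip n v = 0) (hv : v ≠ 0) : NP u v := by
  by_contra h
  simp only [NP, not_or, not_not, ip] at h h1 h2
  rcases v3_ne.1 hv with k | k | k <;> grind

theorem ex_perp (v : V3) : ∃ n, n ≠ 0 ∧ ip n v = 0 := by
  by_cases h : v.1 = 0
  · exact ⟨(1, 0, 0), by simp, by simp [ip, h]⟩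
  · exact ⟨(-v.2.1, v.1, 0), by simp [h], by simp [ip]; ring⟩

theorem ip_ev {n : V3} (h : n ≠ 0) (x y z : ℝ) (hz : z ≠ 0) :
    ∀ᶠ t in cofinite, ip n (x + t, y + t ^ 2, z) ≠ 0 := by
  filter_upwards [quad_ev (a := n.1 * x + n.2.1 * y + n.2.2 * z) (b := n.1) (c := n.2.1) (by
    rcases v3_ne.1 h with k | k | k <;> grind)] with t ht e
  exact ht (by simp only [ip] at e; linear_combination e)

theorem gen_vec (l : List V3) (h : ∀ n ∈ l, n ≠ 0) : ∃ v, ∀ n ∈ l, ip n v ≠ 0 :=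
  let ⟨_, ht⟩ := (ev_all fun n hn => ip_ev (h n hn) 0 0 1 one_ne_zero).exists; ⟨_, ht⟩

def cb (a b c ξ : V3) : V3 := (ξ.1 * a.1 + ξ.2.1 * b.1 + ξ.2.2 * c.1,
  ξ.1 * a.2.1 + ξ.2.1 * b.2.1 + ξ.2.2 * c.2.1, ξ.1 * a.2.2 + ξ.2.1 * b.2.2 + ξ.2.2 * c.2.2)

theorem det_cb (a b c u v w) :
    det3 (cb a b c u) (cb a b c v) (cb a b c w) = det3 u v w * det3 a b c := by
  simp only [det3, cb]; ring

theorem ip_cb (a b c n u) : ip n (cb a b c u) = ip (ip n a, ip n b, ip n c) u := by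
  simp only [ip, cb]; ring

theorem cb_surj {a b c} (h : det3 a b c ≠ 0) (x : V3) : ∃ y, cb a b c y = x :=
  ⟨(det3 x b c / det3 a b c, det3 a x c / det3 a b c, det3 a b x / det3 a b c), by
    refine Prod.ext ?_ (Prod.ext ?_ ?_) <;> simp only [cb] <;> field_simp <;> simp only [det3] <;>
      ring⟩

theorem np_cb {a b c u v} (h : det3 a b c ≠ 0) : NP (cb a b c u) (cb a b c v) ↔ NP u v := by
  constructor <;> intro k
  · obtain ⟨y, hy⟩ := cb_surj h (cr (cb a b c u) (cb a b c v))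
    have := (ip_pos (cr_ne.2 k)).ne'
    rw [ip_cr, ← hy, det_cb] at this
    exact np_det (left_ne_zero_of_mul this)
  · refine np_det (c := cb a b c (cr u v)) ?_
    rw [det_cb, ← ip_cr]
    exact mul_ne_zero (ip_pos (cr_ne.2 k)).ne' h

abbrev PV := V3 × List (V3 × V3 × V3)

def Off (p : V3) (D : List (V3 × V3 × V3)) : Prop :=
  ∀ e ∈ D, ¬ NP p e.1 ∨ ¬ NP p e.2.1 ∨ ¬ NP p e.2.2 ∨ det3 e.1 e.2.1 p ≠ 0

def cH : Sem PV := ⟨fun x => x.1 ≠ 0 ∧ ∀ e ∈ x.2, NP e.1 e.2.1,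
  fun x y => NP x.1 y.1 ∧ Off x.1 y.2 ∧ Off y.1 x.2, fun c l => match c, l with
  | 1, [u, v, w] => (NP u.1 v.1 ∧ NP u.1 w.1 ∧ NP v.1 w.1 ∧ det3 u.1 v.1 w.1 = 0) ∧
      (u.1, v.1, w.1) ∈ u.2
  | 2, [u, v, w] => NP u.1 v.1 ∧ NP u.1 w.1 ∧ NP v.1 w.1 ∧ det3 u.1 v.1 w.1 = 0
  | 3, [u, v, w] => det3 u.1 v.1 w.1 ≠ 0
  | _, _ => True⟩

theorem cH_sy (x y) (h : cH.Ap x y) : cH.Ap y x := ⟨h.1.symm, h.2.2, h.2.1⟩

def mkT (l : List (ℕ × ℕ × ℕ)) : List Con := l.map fun e => (1, [e.1, e.2.1, e.2.2])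

theorem gad {m : ℕ} {Ed : List (ℕ × ℕ × ℕ)} {f : ℕ → PV} {F : List PV} (hF : ∀ x ∈ F, cH.Ok x)
    {a b c : V3} (hd : det3 a b c ≠ 0) (ξ : ℝ → ℕ → V3)
    (h0 : ∀ t, ∀ i < 3, cb a b c (ξ t i) = (f i).1) (hE : ∀ e ∈ Ed, 3 ≤ e.1)
    (H1 : ∀ n ≠ 0, ∀ i < m, ∀ᶠ t in cofinite, ip n (ξ t (3 + i)) ≠ 0)
    (H2 : ∀ x ∈ F, ∀ y, cb a b c y = x.1 → ∀ e ∈ Ed, ∀ᶠ t in cofinite,
      ¬ NP y (ξ t e.2.2) ∨ det3 (ξ t e.1) (ξ t e.2.1) y ≠ 0)
    (H3 : ∀ t ≠ 0, (∀ i < m, ∀ j < i, NP (ξ t (3 + i)) (ξ t (3 + j))) ∧ ∀ e ∈ Ed,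
      (NP (ξ t e.1) (ξ t e.2.1) ∧ NP (ξ t e.1) (ξ t e.2.2) ∧ NP (ξ t e.2.1) (ξ t e.2.2) ∧
        det3 (ξ t e.1) (ξ t e.2.1) (ξ t e.2.2) = 0) ∧ ∀ i < m, 3 + i = e.1 ∨ 3 + i = e.2.1 ∨
          3 + i = e.2.2 ∨ det3 (ξ t e.1) (ξ t e.2.1) (ξ t (3 + i)) ≠ 0) :
    ∃ g : ℕ → PV, (∀ i < m, cH.Ok (g i) ∧ ∀ x ∈ F, cH.Ap (g i) x) ∧
      (∀ i < m, ∀ j < i, cH.Ap (g i) (g j)) ∧
        cH.sat (mkT Ed) fun i => if i < 3 then f i else g (i - 3) := by
  have G1 : ∀ n ≠ 0, ∀ i < m, ∀ᶠ t in cofinite, ip n (cb a b c (ξ t (3 + i))) ≠ 0 :=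
    fun n hn i hi => by
      simp only [ip_cb]
      refine H1 _ (fun e => hd ?_) i hi
      simp only [Prod.mk_eq_zero] at e
      exact det_of_orth hn e.1 e.2.1 e.2.2
  have G2 : ∀ᶠ t in cofinite, ∀ i < m, cb a b c (ξ t (3 + i)) ≠ 0 ∧ ∀ x ∈ F,
      NP (cb a b c (ξ t (3 + i))) x.1 ∧ Off (cb a b c (ξ t (3 + i))) x.2 :=
    ev_lt fun i hi => by
      refine Eventually.and ((G1 (1, 0, 0) (by simp) i hi).mono fun t h e => h (by simp [e, ip]))
        (ev_all fun x hx => ?_)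
      obtain ⟨n, n0, hn⟩ := ex_perp x.1
      refine ((G1 n n0 i hi).mono fun t h => np_ip h hn (hF x hx).1).and (ev_all fun e he => ?_)
      exact (G1 _ (cr_ne.2 ((hF x hx).2 e he)) i hi).mono fun t h =>
        .inr (.inr (.inr (by rwa [ip_cr] at h)))
  have G3 : ∀ᶠ t in cofinite, ∀ x ∈ F, ∀ e ∈ Ed, ¬ NP x.1 (cb a b c (ξ t e.2.2)) ∨
      det3 (cb a b c (ξ t e.1)) (cb a b c (ξ t e.2.1)) x.1 ≠ 0 := ev_all fun x hx => by
    obtain ⟨y, hy⟩ := cb_surj hd x.1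
    refine ev_all fun e he => (H2 x hx y hy e he).mono fun t h => ?_
    rw [← hy, np_cb hd, det_cb]
    exact h.imp_right fun h => mul_ne_zero h hd
  obtain ⟨t, ⟨h2, h3⟩, t0⟩ := ((G2.and G3).and (eventually_cofinite_ne 0)).exists
  obtain ⟨h4, h5⟩ := H3 t t0
  let D := Ed.map fun e => (cb a b c (ξ t e.1), cb a b c (ξ t e.2.1), cb a b c (ξ t e.2.2))
  have o : ∀ i < m, Off (cb a b c (ξ t (3 + i))) D := fun i hi => by
    simp only [Off, D, List.forall_mem_map, det_cb]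
    intro e he
    rcases (h5 e he).2 i hi with h | h | h | h
    · exact .inl (h ▸ np_self _)
    · exact .inr (.inl (h ▸ np_self _))
    · exact .inr (.inr (.inl (h ▸ np_self _)))
    · exact .inr (.inr (.inr (mul_ne_zero h hd)))
  refine ⟨fun i => (cb a b c (ξ t (3 + i)), D), fun i hi => ⟨⟨(h2 i hi).1, ?_⟩, fun x hx =>
    ⟨((h2 i hi).2 x hx).1, ((h2 i hi).2 x hx).2, ?_⟩⟩, fun i hi j hj =>
      ⟨(np_cb hd).2 (h4 i hi j hj), o i hi, o j (by omega)⟩, ?_⟩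
  · simp only [D, List.forall_mem_map, np_cb hd]
    exact fun e he => (h5 e he).1.1
  · simp only [Off, D, List.forall_mem_map]
    exact fun e he => .inr (.inr (h3 x hx e he))
  · have p : ∀ i, (if i < 3 then f i else (cb a b c (ξ t (3 + (i - 3))), D)).1 =
        cb a b c (ξ t i) := fun i => by
      split_ifs with h
      · exact (h0 t i h).symm
      · rw [show 3 + (i - 3) = i by omega]
    simp only [Sem.sat, mkT, List.forall_mem_map, List.map_cons, List.map_nil, cH, p, np_cb hd,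
      det_cb]
    intro e he
    obtain ⟨⟨k1, k2, k3, k4⟩, -⟩ := h5 e he
    rw [if_neg (by have := hE e he; omega)]
    exact ⟨⟨k1, k2, k3, by rw [k4, zero_mul]⟩, List.mem_map.2 ⟨e, he, rfl⟩⟩

def edQ : List (ℕ × ℕ × ℕ) := [(3, 4, 0), (5, 6, 0), (3, 5, 1), (4, 6, 1), (3, 6, 2), (4, 5, 2)]

def edD : List (ℕ × ℕ × ℕ) := [(3, 4, 7), (3, 5, 8), (3, 6, 9), (4, 5, 2), (7, 8, 2), (5, 6, 0),
  (8, 9, 0), (4, 6, 1), (7, 9, 1)]

def xQ (t : ℝ) (i : ℕ) : V3 := [(1, 0, 0), (0, 1, 0), (0, 0, 1), (t, t ^ 2, 1), (-t, t ^ 2, 1),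
  (t, -t ^ 2, 1), (t, t ^ 2, -1)].getD i 0

theorem q_c : cH.GC 3 3 4 (mkT edQ) := by
  intro f h F hF
  have H1 : ∀ n ≠ 0, ∀ i < 4, ∀ᶠ t in cofinite, ip n (xQ t (3 + i)) ≠ 0 := fun n hn i hi => by
    have : ∀ a b c : ℝ, a ≠ 0 → b ≠ 0 → c ≠ 0 →
        ∀ᶠ t in cofinite, ip n (a * t, b * t ^ 2, c) ≠ 0 := fun a b c ha hb hc => by
      filter_upwards [quad_ev (a := n.2.2 * c) (b := n.1 * a) (c := n.2.1 * b) (by
        rcases v3_ne.1 hn with k | k | k <;> simp [*])] with t ht e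
      exact ht (by simp only [ip] at e; linear_combination e)
    interval_cases i
    · simpa [xQ] using this 1 1 1 (by simp) (by simp) (by simp)
    · simpa [xQ] using this (-1) 1 1 (by simp) (by simp) (by simp)
    · simpa [xQ] using this 1 (-1) 1 (by simp) (by simp) (by simp)
    · simpa [xQ] using this 1 1 (-1) (by simp) (by simp) (by simp)
  refine gad hF (a := (f 0).1) (b := (f 1).1) (c := (f 2).1) h xQ
    (fun t i hi => by interval_cases i <;> simp [xQ, cb]) (by decide) H1 (fun x _ y _ e he => ?_)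
    fun t t0 => ⟨fun i hi j hj => ?_, ?_⟩
  · obtain ⟨k1, k2, k3⟩ : 3 ≤ e.1 ∧ e.1 < 7 ∧ e.2.2 < 3 := by revert e; decide
    have k4 : ∀ t, xQ t e.2.2 = xQ 0 e.2.2 := fun t => by
      generalize e.2.2 = k at k3; interval_cases k <;> rfl
    by_cases hy : NP y (xQ 0 e.2.2)
    · filter_upwards [H1 _ (cr_ne.2 hy) (e.1 - 3) (by omega), eventually_cofinite_ne 0] with t h1 h2
      rw [show 3 + (e.1 - 3) = e.1 by omega, ip_cr] at h1
      refine .inr fun h3 => h1 ?_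
      simp only [edQ, List.mem_cons, List.not_mem_nil, or_false] at he
      rcases he with rfl | rfl | rfl | rfl | rfl | rfl <;> simp [xQ, det3] at h3 ⊢ <;> grind
    · exact .of_forall fun t => .inl (by rwa [k4])
  · interval_cases i <;> interval_cases j <;> simp [xQ, NP, t0] <;> grind
  · intro e he
    simp only [edQ, List.mem_cons, List.not_mem_nil, or_false] at he
    rcases he with rfl | rfl | rfl | rfl | rfl | rfl <;>
      refine ⟨by simp [xQ, NP, det3, t0] <;> grind, fun i hi => ?_⟩ <;>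
      interval_cases i <;> simp [xQ, det3] <;> grind

noncomputable def xD (α β s t : ℝ) (i : ℕ) : V3 := [(α⁻¹, 0, 0), (0, β⁻¹, 0), (1, 1, 0),
  (0 + t, 0 + t ^ 2, 1), (1 + t, s + t ^ 2, 1), (2 + t, s + 1 + t ^ 2, 1), (1 + t, s + 1 + t ^ 2, 1),
  (3 + t, 3 * s + t ^ 2, 1), (6 + t, 3 * s + 3 + t ^ 2, 1), (3 + t, 3 * s + 3 + t ^ 2, 1)].getD i 0

theorem d_c : cH.GC 2 3 7 (mkT edD) := by
  intro f h F hF
  obtain ⟨n1, n2, n3, h⟩ : NP (f 0).1 (f 1).1 ∧ NP (f 0).1 (f 2).1 ∧ NP (f 1).1 (f 2).1 ∧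
    det3 (f 0).1 (f 1).1 (f 2).1 = 0 := h
  have d0 : det3 (f 0).1 (f 1).1 (cr (f 0).1 (f 1).1) ≠ 0 := by
    rw [← ip_cr]; exact (ip_pos (cr_ne.2 n1)).ne'
  obtain ⟨⟨α, β, γ⟩, e⟩ := cb_surj d0 (f 2).1
  have e0 : cb (f 0).1 (f 1).1 (cr (f 0).1 (f 1).1) (1, 0, 0) = (f 0).1 := by simp [cb]
  have e1 : cb (f 0).1 (f 1).1 (cr (f 0).1 (f 1).1) (0, 1, 0) = (f 1).1 := by simp [cb]
  generalize cr (f 0).1 (f 1).1 = d at *
  obtain rfl : γ = 0 := by
    have := det_cb (f 0).1 (f 1).1 d (1, 0, 0) (0, 1, 0) (α, β, γ)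
    rw [e0, e1, e, h, eq_comm] at this
    simpa [det3] using (mul_eq_zero.1 this).resolve_right d0
  have ha : α ≠ 0 := by
    have := np_cb (u := (0, 1, 0)) (v := (α, β, 0)) d0
    rw [e1, e] at this; simpa [NP, eq_comm] using this.1 n3
  have hb : β ≠ 0 := by
    have := np_cb (u := (1, 0, 0)) (v := (α, β, 0)) d0
    rw [e0, e] at this; simpa [NP] using this.1 n2
  have d1 : det3 (α • (f 0).1) (β • (f 1).1) d ≠ 0 := fun h => mul_ne_zero (mul_ne_zero ha hb) d0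
    (by simp only [det3, Prod.smul_fst, Prod.smul_snd, smul_eq_mul] at h ⊢; linear_combination h)
  choose co hco using cb_surj d1
  obtain ⟨s, hs, s1⟩ := (((ev_all (l := F) (p := fun x s =>
    NP (cv (1, 0, 0) (0, 1, 0) 0 s) (co x.1) ∧ NP (cv (2, 1, 0) (0, 1, 0) 0 s) (co x.1) ∧
      NP (cv (1, 1, 0) (0, 1, 0) 0 s) (co x.1)) fun x hx => by
    have : co x.1 ≠ 0 := fun h => (hF x hx).1 (by rw [← hco x.1, h]; simp [cb])
    exact (ev_np this (by simp [NP])).and ((ev_np this (by simp [NP])).and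
      (ev_np this (by simp [NP])))).filter_mono atTop_le_cofinite).and
        (eventually_gt_atTop 3)).exists
  have H1 : ∀ n ≠ 0, ∀ i < 7, ∀ᶠ t in cofinite, ip n (xD α β s t (3 + i)) ≠ 0 := fun n hn i hi => by
    interval_cases i <;> exact ip_ev hn _ _ _ one_ne_zero
  refine gad hF d1 (xD α β s) (fun t i hi => ?_) (by decide) H1 (fun x hx y hy e he => ?_)
    fun t _ => ⟨fun i hi j hj => ?_, ?_⟩
  · interval_cases i
    · simp [xD, cb, ha]
    · simp [xD, cb, hb]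
    · rw [← e]; simp [xD, cb]
  · obtain rfl : y = co x.1 := by
      have k : ∀ u v, det3 u v y = det3 u v (co x.1) := fun u v =>
        mul_right_cancel₀ d1 (by rw [← det_cb, ← det_cb, hy, hco])
      have k1 := k (1, 0, 0) (0, 1, 0)
      have k2 := k (0, 1, 0) (0, 0, 1)
      have k3 := k (0, 0, 1) (1, 0, 0)
      simp [det3] at k1 k2 k3
      exact Prod.ext k2 (Prod.ext k3 k1)
    have key : ∀ (m : V3) (i j : ℕ) (κ : ℝ), NP m (co x.1) → i < 7 → κ ≠ 0 →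
        (∀ t y, det3 (xD α β s t (3 + i)) (xD α β s t j) y = κ * det3 m y (xD α β s t (3 + i))) →
        ∀ᶠ t in cofinite, det3 (xD α β s t (3 + i)) (xD α β s t j) (co x.1) ≠ 0 :=
      fun m i j κ hm hi h0 h => (H1 _ (cr_ne.2 hm) i hi).mono fun t ht => by
        rw [h, ← ip_cr]; exact mul_ne_zero h0 ht
    have k2 : ∀ (i j k : ℕ) (κ : ℝ), i < 7 → k < 3 → κ ≠ 0 → (∀ t y, det3 (xD α β s t (3 + i))
        (xD α β s t j) y = κ * det3 (xD α β s 0 k) y (xD α β s t (3 + i))) → ∀ᶠ t in cofinite,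
          ¬ NP (co x.1) (xD α β s t k) ∨ det3 (xD α β s t (3 + i)) (xD α β s t j) (co x.1) ≠ 0 := by
      intro i j k κ hi hk h0 h
      by_cases hy : NP (co x.1) (xD α β s 0 k)
      · exact (key _ i j κ hy.symm hi h0 h).mono fun _ => .inr
      · exact .of_forall fun t => .inl (by interval_cases k <;> exact hy)
    obtain ⟨s2, s3, s4⟩ := hs x hx
    simp only [edD, List.mem_cons, List.not_mem_nil, or_false] at he
    rcases he with rfl | rfl | rfl | rfl | rfl | rfl | rfl | rfl | rfl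
    · exact (key _ 0 4 1 s2 (by omega) (by simp) fun t y => by
        simp [xD, det3, cv]; ring).mono fun _ => .inr
    · exact (key _ 0 5 1 s3 (by omega) (by simp) fun t y => by
        simp [xD, det3, cv]; ring).mono fun _ => .inr
    · exact (key _ 0 6 1 s4 (by omega) (by simp) fun t y => by
        simp [xD, det3, cv]; ring).mono fun _ => .inr
    · exact k2 1 5 2 1 (by omega) (by omega) (by simp) fun t y => by simp [xD, det3]; ring
    · exact k2 4 8 2 3 (by omega) (by omega) (by simp) fun t y => by simp [xD, det3]; ring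
    · exact k2 2 6 0 (-α) (by omega) (by omega) (by simpa) fun t y => by
        simp [xD, det3]; field_simp; ring
    · exact k2 5 9 0 (-3 * α) (by omega) (by omega) (by simpa) fun t y => by
        simp [xD, det3]; field_simp; ring
    · exact k2 1 6 1 β (by omega) (by omega) hb fun t y => by simp [xD, det3]; field_simp; ring
    · exact k2 4 9 1 (3 * β) (by omega) (by omega) (by simpa) fun t y => by
        simp [xD, det3]; field_simp; ring
  · interval_cases i <;> interval_cases j <;> simp only [xD, NP, List.getD_cons_succ,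
      List.getD_cons_zero] <;> right <;> first | (left; intro h; linarith) | (right; intro h; linarith)
  · intro e he
    simp only [edD, List.mem_cons, List.not_mem_nil, or_false] at he
    rcases he with rfl | rfl | rfl | rfl | rfl | rfl | rfl | rfl | rfl <;>
      refine ⟨by simp [xD, NP, det3, ha, hb] <;> grind, fun i hi => ?_⟩ <;>
      interval_cases i <;> simp [xD, det3] <;> intro h <;> nlinarith

end Pool.Agent.H38.Hyp
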