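import Pool.Agent.H38.Hyp.Snd

/-!
Realizing systems of collinear triples in the plane is hard for the existential theory of the reals.
-/

namespace Pool.Agent.H38.Hyp

open Pool.Agent.H38.NP Pool.Agent.H38.ER Filter

theorem typed_s {p q} (w : WF arS 1 p) (h : cS.Rz p q) : ∃ q', sS.Rz p q' := by
  obtain ⟨⟨ok, ap⟩, h2⟩ := h
  obtain ⟨t, ht⟩ := (ev_lt fun i hi => ev_lt fun j hj => (show ∀ᶠ t in cofinite,
    i ≠ j → NP (pol t (q i)) (pol t (q j)) from by
      by_cases h : i = j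
      · simp [h]
      · exact (pol_ev (ok i hi) (ok j hj) (ap i hi j hj h)).mono fun _ h _ => h)).exists
  refine ⟨fun i => pol t (q i), ⟨fun i hi => pol_ne t (ok i hi), ht⟩, fun c hc => ?_⟩
  obtain ⟨c1, c2, -⟩ := w c hc
  have := h2 c hc
  obtain ⟨l, A⟩ := c
  obtain rfl : l = 0 := by simpa using c1
  obtain ⟨i, j, rfl⟩ := List.length_eq_two.1 c2
  obtain ⟨a1, a2, a3⟩ := this
  show ip (pol t (q i)) (pol t (q j)) = 0
  simp only [pol, a1, a2, cond_true, cond_false, ip] at a3 ⊢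
  linear_combination a3

def tS : Sem Bool := ⟨fun _ => True, fun _ _ => True, fun c l => match c with
  | 0 => l = [true, false]
  | 1 => l = [true, false, true, true, true, true]
  | _ => l = [true, false, true, true, true, true, true, true, true, true]⟩

theorem typing {p : ℕ × List Q4} (hb : Bd p.1 p.2) :
    ∃ τ, tS.Rz (subst 1 6 9 skE (subst 2 10 16 skC (topS p))) τ := by
  have w0 := topS_wf hb
  have h0 : tS.Rz (topS p) fun i => decide (i % 4 ≠ 1) := by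
    refine ⟨⟨fun _ _ => trivial, fun _ _ _ _ _ => trivial⟩, ?_⟩
    simp only [Sem.sat, topS, List.forall_mem_append, List.forall_mem_flatMap, List.forall_mem_map,
      List.forall_mem_cons]
    simp [tS, Nat.add_mod]
  obtain ⟨q, h1⟩ := Sem.complete (fun _ _ _ => trivial) w0 skC_wf (fun f h _ _ =>
    ⟨fun i => decide (i < 10), fun _ _ => ⟨trivial, fun _ _ => trivial⟩, fun _ _ _ _ => trivial, by
      simp [tS, arS, List.range_succ] at h
      simp [Sem.sat, skC, mkE, tS, arS, h]⟩) h0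
  exact Sem.complete (fun _ _ _ => trivial) (w0.subst skC_wf) skE_wf (fun f h _ _ =>
    ⟨fun i => [false, true, true, true, false, false, true, false, false].getD i true,
      fun _ _ => ⟨trivial, fun _ _ => trivial⟩, fun _ _ _ _ => trivial, by
      simp [tS, arS, List.range_succ] at h
      simp [Sem.sat, skE, mkE, tS, arS, h]⟩) h1

def PL (p : ℕ × List (ℕ × ℕ)) : Prop := ∃ X L : ℕ → V3, (∀ i < p.1, X i ≠ 0 ∧ L i ≠ 0) ∧
  (∀ i < p.1, ∀ j < p.1, i ≠ j → NP (X i) (X j) ∧ NP (L i) (L j)) ∧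
    ∀ e ∈ p.2, ip (X e.1) (L e.2) = 0

theorem pl_erh : ERH (fun p => ∀ e ∈ p.2, e.1 < p.1 ∧ e.2 < p.1) PL := by
  refine pf_erh.reduce (fun p => ((subst 1 6 9 skE (subst 2 10 16 skC (topS p))).1,
    edges (subst 1 6 9 skE (subst 2 10 16 skC (topS p))).2)) ?_ ?_
  · have : PT topS := by unfold topS; fun_prop
    have := pt_subst 1 6 9 skE (pt_subst 2 10 16 skC this)
    exact this.fst.mk (pt_edges this.snd)
  rintro p ⟨h0, hb, hp⟩
  have w0 := topS_wf hb
  have w1 := w0.subst skC_wf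
  have w2 := w1.subst skE_wf
  obtain ⟨τ, -, hτ⟩ := typing hb
  have s : ∀ q, cS.Rz (subst 1 6 9 skE (subst 2 10 16 skC (topS p))) q → NZ p := fun q h =>
    let ⟨_, h⟩ := typed_s w2 h; topS_s h0 hb (Sem.sound w0 c_s (Sem.sound w1 e_s h))
  have c : NZ p → ∃ q, sS.Rz (subst 1 6 9 skE (subst 2 10 16 skC (topS p))) q := fun h => by
    obtain ⟨u, a, b⟩ := hp h
    obtain ⟨q, hq⟩ := topS_c a b
    obtain ⟨q1, h1⟩ := Sem.complete cS_sy w0 skC_wf c_c hq
    obtain ⟨q2, h2⟩ := Sem.complete cS_sy w1 skE_wf e_c h1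
    exact typed_s w2 h2
  change WF arS 1 (subst 1 6 9 skE (subst 2 10 16 skC (topS p))) at w2
  generalize subst 1 6 9 skE (subst 2 10 16 skC (topS p)) = P at *
  have key : ∀ c ∈ P.2, ∃ i j, c = (0, [i, j]) ∧ i < P.1 ∧ j < P.1 := by
    rintro ⟨c, A⟩ hc
    obtain ⟨h1, h3, h4, -⟩ := w2 _ hc
    obtain rfl : c = 0 := by simpa using h1
    obtain ⟨i, j, rfl⟩ := List.length_eq_two.1 h3
    exact ⟨i, j, rfl, h4 i (by simp), h4 j (by simp)⟩
  simp only [PL, edges, List.forall_mem_map]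
  refine ⟨fun c hc => ?_, fun h => ?_, fun ⟨X, L, h1, h2, h3⟩ => s (fun i =>
    (τ i, cond (τ i) (X i) (L i))) ⟨⟨fun i hi => ?_, fun i hi j hj hij e => ?_⟩, fun c hc => ?_⟩⟩
  · obtain ⟨i, j, rfl, h⟩ := key c hc; exact h
  · obtain ⟨q, ⟨h1, h2⟩, h3⟩ := c h
    refine ⟨q, q, fun i hi => ⟨h1 i hi, h1 i hi⟩, fun i hi j hj h => ⟨h2 i hi j hj h, h2 i hi j hj h⟩,
      fun c hc => ?_⟩
    obtain ⟨i, j, rfl, h⟩ := key c hc; exact h3 _ hc
  · have := h1 i hi
    cases h : τ i <;> simp [cS, this, h]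
  · have := h2 i hi j hj hij
    simp only at e ⊢
    rw [← e]; cases τ i <;> simp [this]
  · obtain ⟨i, j, rfl, h⟩ := key c hc
    have := hτ _ hc
    simp only [tS, List.map_cons, List.map_nil, List.cons.injEq, and_true] at this
    simpa [cS, this] using h3 _ hc

def topH (p : ℕ × List (ℕ × ℕ)) : ℕ × List Con :=
  (3 * p.1, p.2.map (fun e => (2, [p.1 + 2 * e.2, p.1 + 2 * e.2 + 1, e.1])) ++
    (List.range p.1).flatMap fun l => ((List.range p.1).filter fun k => k != l).map fun k =>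
      (3, [p.1 + 2 * l, p.1 + 2 * l + 1, p.1 + 2 * k]))

def lf (u : ℝ × ℝ) : V3 := (u.1, u.2, 1)

theorem det_lf (u v w) : det3 (lf u) (lf v) (lf w) = cx u v w := by simp [det3, lf, cx]; ring

theorem np_lf {u v} (h : u ≠ v) : NP (lf u) (lf v) := by
  by_contra k
  simp only [NP, lf, not_or, not_not] at k
  exact h (Prod.ext (by linarith [k.2.1]) (by linarith [k.2.2]))

theorem topH_s {p x N T q} (h : (sH x N T).Rz (topH p) q) : PL p := by
  obtain ⟨⟨-, ap⟩, h⟩ := h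
  simp only [Sem.sat, topH, List.forall_mem_append, List.forall_mem_map, List.forall_mem_flatMap,
    List.mem_range, List.mem_filter, sH, List.map_cons, List.map_nil, bne_iff_ne, and_imp] at h ap
  have n : ∀ i < p.1, cr (lf (x (q (p.1 + 2 * i)))) (lf (x (q (p.1 + 2 * i + 1)))) ≠ 0 :=
    fun i hi => cr_ne.2 (np_lf (ap _ (by omega) _ (by omega) (by omega)))
  refine ⟨fun i => lf (x (q i)), fun i => cr (lf (x (q (p.1 + 2 * i)))) (lf (x (q (p.1 + 2 * i + 1)))),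
    fun i hi => ⟨by simp [lf], n i hi⟩, fun i hi j hj hij =>
      ⟨np_lf (ap _ (by omega) _ (by omega) hij), np_ip (n := lf (x (q (p.1 + 2 * j)))) ?_ ?_
        (n j hj)⟩, fun e he => ?_⟩
  · rw [ip_comm, ip_cr, det_lf]; exact h.2 i hi j hj hij.symm
  · rw [ip_comm, ip_cr, det_lf]; simp [cx, mul_comm]
  · rw [ip_comm, ip_cr, det_lf]; exact h.1 e he

theorem topH_c {p} (hb : ∀ e ∈ p.2, e.1 < p.1 ∧ e.2 < p.1) (h : PL p) : ∃ q, cH.Rz (topH p) q := by
  obtain ⟨X, L, h1, h2, h3⟩ := h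
  choose n n0 hn using fun i => ex_perp (L i)
  have G : ∀ x y z : ℝ, z ≠ 0 → ∀ᶠ t in cofinite, ∀ i < p.1, (ip (X i) (x + t, y + t ^ 2, z) ≠ 0 ∧
      ip (n i) (x + t, y + t ^ 2, z) ≠ 0) ∧ ∀ j < p.1, i ≠ j →
        ip (cr (L i) (L j)) (x + t, y + t ^ 2, z) ≠ 0 := fun x y z hz => ev_lt fun i hi =>
    ((ip_ev (h1 i hi).1 _ _ _ hz).and (ip_ev (n0 i) _ _ _ hz)).and (ev_lt fun j hj => by
      by_cases e : i = j
      · simp [e]
      · exact (ip_ev (cr_ne.2 (h2 i hi j hj e).2) _ _ _ hz).mono fun _ h _ => h)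
  obtain ⟨a, ha⟩ : ∃ a, ∀ i < p.1, (ip (X i) a ≠ 0 ∧ ip (n i) a ≠ 0) ∧ ∀ j < p.1, i ≠ j →
    ip (cr (L i) (L j)) a ≠ 0 := let ⟨_, h⟩ := (G 0 0 1 one_ne_zero).exists; ⟨_, h⟩
  have nz : ∀ a, ∀ i < p.1, ip (n i) a ≠ 0 → cr (L i) a ≠ 0 := fun a i hi h =>
    cr_ne.2 (np_ip h (hn i) (h1 i hi).2).symm
  obtain ⟨b, hb1, hb2⟩ : ∃ b, (∀ i < p.1, (ip (X i) b ≠ 0 ∧ ip (n i) b ≠ 0) ∧ ∀ j < p.1, i ≠ j →
      ip (cr (L i) (L j)) b ≠ 0) ∧ ∀ i < p.1, ip (cr (L i) a) b ≠ 0 :=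
    let ⟨_, h⟩ := ((G 0 0 1 one_ne_zero).and (ev_lt fun i hi =>
      ip_ev (nz a i hi (ha i hi).1.2) 0 0 1 one_ne_zero)).exists; ⟨_, h⟩
  have z1 : ∀ u v, ip v (cr u v) = 0 := fun u v => by simp only [ip, cr]; ring
  have z2 : ∀ u v, ip u (cr u v) = 0 := fun u v => by simp only [ip, cr]; ring
  have z3 : ∀ u v w, ip u (cr v w) = ip (cr u v) w := fun u v w => by simp only [ip, cr]; ring
  have z4 : ∀ u a b w, det3 (cr u a) (cr u b) w = ip (cr u a) b * ip w u := fun u a b w => by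
    simp only [ip, cr, det3]; ring
  let q : ℕ → V3 := fun i => if i < p.1 then X i else
    cr (L ((i - p.1) / 2)) (if (i - p.1) % 2 = 0 then a else b)
  have q0 : ∀ i < p.1, q i = X i := fun i hi => if_pos hi
  have q1 : ∀ i, q (p.1 + 2 * i) = cr (L i) a := fun i => by simp [q]
  have q2 : ∀ i, q (p.1 + 2 * i + 1) = cr (L i) b := fun i => by
    simp only [q]; rw [if_neg (by omega), if_neg (by omega)]; congr 2; omega
  have cs : ∀ i < 3 * p.1, i < p.1 ∨ ∃ l < p.1, i = p.1 + 2 * l ∨ i = p.1 + 2 * l + 1 :=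
    fun i hi => (Nat.lt_or_ge i p.1).imp_right fun h => ⟨(i - p.1) / 2, by omega, by omega⟩
  have na : ∀ i < p.1, cr (L i) a ≠ 0 := fun i hi => nz a i hi (ha i hi).1.2
  have nb : ∀ i < p.1, cr (L i) b ≠ 0 := fun i hi => nz b i hi (hb1 i hi).1.2
  have xa : ∀ i < p.1, ∀ l < p.1, NP (X i) (cr (L l) a) ∧ NP (X i) (cr (L l) b) := fun i hi l hl =>
    ⟨np_ip (by rw [ip_comm]; exact (ha i hi).1.1) (z1 _ _) (na l hl),
      np_ip (by rw [ip_comm]; exact (hb1 i hi).1.1) (z1 _ _) (nb l hl)⟩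
  have ab : ∀ i < p.1, ∀ l < p.1, NP (cr (L i) a) (cr (L l) b) := fun i hi l hl =>
    np_ip (by rw [ip_comm]; exact hb2 i hi) (z1 _ _) (nb l hl)
  have np : ∀ i < 3 * p.1, ∀ j < 3 * p.1, i ≠ j → NP (q i) (q j) := fun i hi j hj hij => by
    rcases cs i hi with h | ⟨l, hl, rfl | rfl⟩ <;> rcases cs j hj with h' | ⟨k, hk, rfl | rfl⟩ <;>
      try simp only [q1, q2]
    · rw [q0 i h, q0 j h']; exact (h2 i h j h' hij).1
    · rw [q0 i h]; exact (xa i h k hk).1
    · rw [q0 i h]; exact (xa i h k hk).2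
    · rw [q0 j h']; exact (xa j h' l hl).1.symm
    · exact np_ip (by rw [z3]; exact (ha k hk).2 l hl (by omega)) (z2 _ _) (na k hk)
    · exact ab l hl k hk
    · rw [q0 j h']; exact (xa j h' l hl).2.symm
    · exact (ab k hk l hl).symm
    · exact np_ip (by rw [z3]; exact (hb1 k hk).2 l hl (by omega)) (z2 _ _) (nb k hk)
  refine ⟨fun i => (q i, []), ⟨fun i hi => ⟨?_, by simp⟩, fun i hi j hj hij =>
    ⟨np i hi j hj hij, by simp [Off], by simp [Off]⟩⟩, ?_⟩
  · rcases cs i hi with h | ⟨l, hl, rfl | rfl⟩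
    · simp only [q0 i h]; exact (h1 i h).1
    · simp only [q1]; exact na l hl
    · simp only [q2]; exact nb l hl
  · simp only [Sem.sat, topH, List.forall_mem_append, List.forall_mem_map, List.forall_mem_flatMap,
      List.mem_range, List.mem_filter, cH, List.map_cons, List.map_nil, bne_iff_ne, and_imp]
    refine ⟨fun e he => ?_, fun l hl k hk hkl => ?_⟩
    · obtain ⟨e1, e2⟩ := hb e he
      refine ⟨np _ (by omega) _ (by omega) (by omega), np _ (by omega) _ (by omega) (by omega),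
        np _ (by omega) _ (by omega) (by omega), ?_⟩
      rw [q1, q2, q0 _ e1, z4, h3 e he, mul_zero]
    · rw [q1, q2, q1, z4, ip_comm _ (L l), z3]
      exact mul_ne_zero (hb2 l hl) ((ha l hl).2 k hk (Ne.symm hkl))

/-- a realization in which each line of an edge contains exactly the vertices of the edge -/
def SR (p : ℕ × List (List ℕ)) : Prop := ∃ y : ℕ → ℝ × ℝ,
  (∀ i < p.1, ∀ j < p.1, i ≠ j → y i ≠ y j) ∧ ∀ e ∈ p.2, e.Nodup ∧ ∃ α β γ : ℝ, (α ≠ 0 ∨ β ≠ 0) ∧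
    ∀ v < p.1, α * (y v).1 + β * (y v).2 + γ = 0 ↔ v ∈ e

/-- a realization with collinear edges and non-collinear triangles -/
def WR (p : ℕ × List (List ℕ)) : Prop := ∃ x T,
  (∀ i < p.1, ∀ j < p.1, i ≠ j → x i ≠ x j) ∧ Tri x p.1 T ∧ ∀ e ∈ p.2, T e

theorem off_cx {y : ℕ → ℝ × ℝ} {α β γ : ℝ} {a b c : ℕ} (h : y a ≠ y b)
    (ha : α * (y a).1 + β * (y a).2 + γ = 0) (hb : α * (y b).1 + β * (y b).2 + γ = 0)
    (hc : cx (y a) (y b) (y c) = 0) : α * (y c).1 + β * (y c).2 + γ = 0 := by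
  obtain ⟨s, e⟩ := par2 h hc
  rw [e]; linear_combination (1 - s) * ha + s * hb

theorem SR.wr {p} (h : SR p) : WR p := by
  obtain ⟨y, h1, h2⟩ := h
  refine ⟨y, (· ∈ p.2), h1, ⟨fun i hi j hj k hk h => ?_, fun e f g he _ _ a ha b hb c hc
    k1 k2 _ h => ?_⟩, fun _ h => h⟩
  · obtain ⟨-, α, β, γ, h0, h⟩ := h2 _ h
    have a := (h i hi).2 (by simp)
    have b := (h j hj).2 (by simp)
    have c := (h k hk).2 (by simp)
    unfold cx
    rcases h0 with h0 | h0 <;> refine mul_left_cancel₀ h0 ?_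
    · linear_combination ((y k).2 - (y i).2) * (b - a) - ((y j).2 - (y i).2) * (c - a)
    · linear_combination ((y j).1 - (y i).1) * (c - a) - ((y k).1 - (y i).1) * (b - a)
  · obtain ⟨-, α, β, γ, h0, h3⟩ := h2 _ he
    exact k1.2.2 ((h3 c hc).1 (off_cx (h1 a ha b hb (by rintro rfl; exact k2.2.2 k2.1))
      ((h3 a ha).2 k1.1) ((h3 b hb).2 k1.2.1) h))

theorem sr_of {P : ℕ × List Con} {q} (w : WF (fun _ => 3) 2 P) (h : cH.Rz P q) :
    SR (P.1, (P.2.filter fun c => c.1 == 1).map (·.2)) := by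
  obtain ⟨⟨ok, ap⟩, h⟩ := h
  obtain ⟨t, ht⟩ := (ev_lt fun i hi => ip_ev (ok i hi).1 0 0 1 one_ne_zero).exists
  simp only [ip, zero_add, mul_one] at ht
  refine ⟨fun i => ((q i).1.1 / ((q i).1.1 * t + (q i).1.2.1 * t ^ 2 + (q i).1.2.2),
    (q i).1.2.1 / ((q i).1.1 * t + (q i).1.2.1 * t ^ 2 + (q i).1.2.2)), fun i hi j hj hij e => ?_, ?_⟩
  · have a := ht i hi
    have b := ht j hj
    simp only [Prod.mk.injEq, div_eq_div_iff a b] at e
    rcases (ap i hi j hj hij).1 with k | k | k <;> grind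
  · simp only [List.forall_mem_map, List.mem_filter, beq_iff_eq, and_imp]
    rintro ⟨_, A⟩ hc rfl
    obtain ⟨-, h1, h2, -⟩ := w _ hc
    obtain ⟨i, j, k, rfl⟩ := List.length_eq_three.1 h1
    obtain ⟨⟨n1, n2, n3, h3⟩, h4⟩ := h _ hc
    have ne : ∀ {a b}, NP (q a).1 (q b).1 → a ≠ b := by rintro a _ h rfl; exact np_self _ h
    have n0 := v3_ne.1 (cr_ne.2 n1)
    have key : ∀ v < P.1, ip (cr (q i).1 (q j).1) (q v).1 = 0 ↔ v ∈ [i, j, k] := fun v hv => by
      rw [ip_cr]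
      refine ⟨fun e => ?_, fun e => ?_⟩
      · by_contra hv'
        simp only [List.mem_cons, List.not_mem_nil, or_false, not_or] at hv'
        have a := fun u hu hne => (ap v hv u (h2 u hu) hne).1
        rcases (ap v hv i (h2 i (by simp)) hv'.1).2.1 _ h4 with h | h | h | h
        · exact h (a i (by simp) hv'.1)
        · exact h (a j (by simp) hv'.2.1)
        · exact h (a k (by simp) hv'.2.2)
        · exact h e
      · simp only [List.mem_cons, List.not_mem_nil, or_false] at e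
        rcases e with rfl | rfl | rfl
        · simp only [det3]; ring
        · simp only [det3]; ring
        · exact h3
    have hi := ht i (h2 i (by simp))
    have k0 := (key i (h2 i (by simp))).2 (by simp)
    generalize cr (q i).1 (q j).1 = n at *
    refine ⟨by simp [ne n1, ne n2, ne n3], n.1 - t * n.2.2, n.2.1 - t ^ 2 * n.2.2, n.2.2, ?_,
      fun v hv => ?_⟩
    · unfold ip at k0; grind
    · have := ht v hv
      rw [← key v hv, ← mul_left_inj' this, zero_mul, ip]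
      refine Eq.congr_left ?_
      linear_combination (n.1 - t * n.2.2) * div_mul_cancel₀ (q v).1.1 this +
        (n.2.1 - t ^ 2 * n.2.2) * div_mul_cancel₀ (q v).1.2.1 this

theorem hyp_erh : ERH (fun p => (∀ e ∈ p.2, e.length = 3 ∧ ∀ v ∈ e, v < p.1) ∧ (WR p → SR p))
    WR := by
  refine pl_erh.reduce (fun p => ((subst 2 3 7 (mkT edD) (subst 3 3 4 (mkT edQ) (topH p))).1,
    ((subst 2 3 7 (mkT edD) (subst 3 3 4 (mkT edQ) (topH p))).2.filter fun c => c.1 == 1).map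
      (·.2))) ?_ fun p hb => ?_
  · have : PT topH := by unfold topH; fun_prop
    have := pt_subst 2 3 7 (mkT edD) (pt_subst 3 3 4 (mkT edQ) this)
    exact this.fst.mk (PT.map (by fun_prop) (PT.filter (by fun_prop) this.snd))
  have w0 : WF (fun _ => 3) 4 (topH p) := by
    simp only [WF, topH, List.forall_mem_append, List.forall_mem_flatMap, List.forall_mem_map,
      List.mem_range, List.mem_filter]
    exact ⟨fun e he => by have := hb e he; simp; omega, fun l hl k hk => by simp; omega⟩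
  have s1 : SkWF (fun _ => 3) 3 4 (mkT edQ) := by simp [SkWF, mkT, edQ]
  have s2 : SkWF (fun _ => 3) 2 7 (mkT edD) := by simp [SkWF, mkT, edD]
  have w1 := w0.subst s1
  have w2 := w1.subst s2
  have c : PL p → SR _ := fun h => by
    obtain ⟨q, hq⟩ := topH_c hb h
    obtain ⟨q1, h1⟩ := Sem.complete cH_sy w0 s1 q_c hq
    obtain ⟨q2, h2⟩ := Sem.complete cH_sy w1 s2 d_c h1
    exact sr_of w2 h2
  have s : WR ((subst 2 3 7 (mkT edD) (subst 3 3 4 (mkT edQ) (topH p))).1,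
      ((subst 2 3 7 (mkT edD) (subst 3 3 4 (mkT edQ) (topH p))).2.filter fun c => c.1 == 1).map
        (·.2)) → PL p := fun ⟨x, T, h1, h2, h3⟩ =>
    topH_s (Sem.sound w0 (q_s h2) (Sem.sound w1 (d_s h2) (q := id) ⟨⟨fun _ h => h, h1⟩,
      fun c hc => by
        obtain ⟨l, A⟩ := c
        have := (w2 _ hc).1
        rcases (by omega : l = 0 ∨ l = 1) with rfl | rfl
        · trivial
        · simpa [sH] using h3 A (List.mem_map.2 ⟨_, List.mem_filter.2 ⟨hc, rfl⟩, rfl⟩)⟩))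
  refine ⟨⟨fun e he => ?_, fun h => c (s h)⟩, fun h => (c h).wr, s⟩
  obtain ⟨c, hc, rfl⟩ := List.mem_map.1 he
  exact ⟨(w2 _ (List.mem_filter.1 hc).1).2.1, (w2 _ (List.mem_filter.1 hc).1).2.2.1⟩

end Pool.Agent.H38.Hyp
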