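import Pool.Agent.H38.Hyp.Gad

/-!
Soundness of the Desargues and complete quadrangle gadgets.
-/

namespace Pool.Agent.H38.Hyp

open Pool.Agent.H38.NP Pool.Agent.H38.ER

def cx (u v w : ℝ × ℝ) : ℝ := (v.1 - u.1) * (w.2 - u.2) - (v.2 - u.2) * (w.1 - u.1)

theorem par2 {u v w} (h : u ≠ v) (h0 : cx u v w = 0) :
    ∃ s : ℝ, w = (u.1 + s * (v.1 - u.1), u.2 + s * (v.2 - u.2)) := by
  unfold cx at h0
  by_cases k : v.1 - u.1 = 0
  · have k2 : v.2 - u.2 ≠ 0 := fun e => h (Prod.ext (by linarith) (by linarith))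
    exact ⟨(w.2 - u.2) / (v.2 - u.2), Prod.ext (by simp only; grind) (by simp only; grind)⟩
  · exact ⟨(w.1 - u.1) / (v.1 - u.1), Prod.ext (by simp only; grind) (by simp only; grind)⟩

theorem ne_cx {u v w} (h : cx u v w ≠ 0) : u ≠ v ∧ u ≠ w ∧ v ≠ w := by
  refine ⟨?_, ?_, ?_⟩ <;> rintro rfl <;> exact h (by simp [cx, mul_comm])

theorem des {O A B C A' B' C' a b c} (h1 : cx O A A' = 0) (h2 : cx O B B' = 0) (h3 : cx O C C' = 0)
    (h4 : cx A B c = 0) (h5 : cx A' B' c = 0) (h6 : cx B C a = 0) (h7 : cx B' C' a = 0)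
    (h8 : cx A C b = 0) (h9 : cx A' C' b = 0) (n1 : cx O A B ≠ 0) (n2 : cx O B C ≠ 0)
    (n3 : cx O A C ≠ 0) (m1 : A' ≠ A) (m2 : B' ≠ B) (m3 : B' ≠ O) (m4 : C' ≠ O) :
    cx a b c = 0 := by
  obtain ⟨s, rfl⟩ := par2 (ne_cx n1).1 h1
  obtain ⟨t, rfl⟩ := par2 (ne_cx n2).1 h2
  obtain ⟨r, rfl⟩ := par2 (ne_cx n2).2.1 h3
  obtain ⟨l, rfl⟩ := par2 (ne_cx n1).2.2 h4
  obtain ⟨m, rfl⟩ := par2 (ne_cx n2).2.2 h6
  obtain ⟨n, rfl⟩ := par2 (ne_cx n3).2.2 h8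
  have s1 : s - 1 ≠ 0 := fun e => m1 (by rw [sub_eq_zero.1 e]; simp)
  have t1 : t - 1 ≠ 0 := fun e => m2 (by rw [sub_eq_zero.1 e]; simp)
  have t0 : t ≠ 0 := by rintro rfl; simp at m3
  have r0 : r ≠ 0 := by rintro rfl; simp at m4
  simp only [cx] at *
  have e1 : l * (s - t) = t * (s - 1) := mul_left_cancel₀ n1 (by linear_combination -h5)
  have e2 : m * (t - r) = r * (t - 1) := mul_left_cancel₀ n2 (by linear_combination -h7)
  have e3 : n * (s - r) = r * (s - 1) := mul_left_cancel₀ n3 (by linear_combination -h9)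
  have d1 : s - t ≠ 0 := fun e => mul_ne_zero t0 s1 (by rw [← e1, e, mul_zero])
  have d2 : t - r ≠ 0 := fun e => mul_ne_zero r0 t1 (by rw [← e2, e, mul_zero])
  have d3 : s - r ≠ 0 := fun e => mul_ne_zero r0 s1 (by rw [← e3, e, mul_zero])
  have e4 : n * (1 - l - m) + l * m = 0 := by
    rw [← eq_div_iff d1] at e1
    rw [← eq_div_iff d2] at e2
    rw [← eq_div_iff d3] at e3
    rw [e1, e2, e3]; field_simp; ring
  linear_combination ((B.1 - A.1) * (C.2 - A.2) - (B.2 - A.2) * (C.1 - A.1)) * e4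

theorem fano {P Q R S a b c} (h1 : cx P Q a = 0) (h2 : cx R S a = 0) (h3 : cx P R b = 0)
    (h4 : cx Q S b = 0) (h5 : cx P S c = 0) (h6 : cx Q R c = 0) (n1 : cx P Q R ≠ 0)
    (n2 : cx P Q S ≠ 0) (n3 : cx P R S ≠ 0) (n4 : cx Q R S ≠ 0) : cx a b c ≠ 0 := by
  obtain ⟨l, rfl⟩ := par2 (ne_cx n1).1 h1
  obtain ⟨n, rfl⟩ := par2 (ne_cx n1).2.1 h3
  obtain ⟨m, rfl⟩ := par2 (ne_cx n1).2.2 h6
  obtain ⟨x, y, rfl⟩ : ∃ x y : ℝ, S = (P.1 + x * (Q.1 - P.1) + y * (R.1 - P.1),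
      P.2 + x * (Q.2 - P.2) + y * (R.2 - P.2)) :=
    ⟨cx P S R / cx P Q R, cx P Q S / cx P Q R, Prod.ext (by field_simp; simp only [cx]; ring)
      (by field_simp; simp only [cx]; ring)⟩
  simp only [cx] at *
  intro h
  have y0 : y ≠ 0 := fun e => n2 (by rw [e]; ring)
  have x0 : x ≠ 0 := fun e => n3 (by rw [e]; ring)
  have z0 : x + y - 1 ≠ 0 := fun e => n4 (by rw [show x = 1 - y by linarith]; ring)
  have e1 : l * (1 - y) = x := mul_left_cancel₀ n1 (by linear_combination h2)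
  have e2 : n * (1 - x) = y := mul_left_cancel₀ n1 (by linear_combination -h4)
  have e3 : m * (x + y) = y := mul_left_cancel₀ n1 (by linear_combination h5)
  have e4 : l * m + n * (1 - m) = l * n := mul_left_cancel₀ n1 (by linear_combination -h)
  grind

/-- edges are collinear and triangles of edges are not -/
structure Tri (x : ℕ → ℝ × ℝ) (N : ℕ) (T : List ℕ → Prop) : Prop where
  col : ∀ i < N, ∀ j < N, ∀ k < N, T [i, j, k] → cx (x i) (x j) (x k) = 0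
  tri : ∀ e f g, T e → T f → T g → ∀ a < N, ∀ b < N, ∀ c < N, a ∈ e ∧ b ∈ e ∧ c ∉ e →
    b ∈ f ∧ c ∈ f ∧ a ∉ f → a ∈ g ∧ c ∈ g ∧ b ∉ g → cx (x a) (x b) (x c) ≠ 0

def sH (x : ℕ → ℝ × ℝ) (N : ℕ) (T : List ℕ → Prop) : Sem ℕ :=
  ⟨(· < N), fun i j => x i ≠ x j, fun c l => match c, l with
  | 1, l => T l
  | 2, [u, v, w] => cx (x u) (x v) (x w) = 0
  | 3, [u, v, w] => cx (x u) (x v) (x w) ≠ 0
  | _, _ => True⟩

theorem q_s {x N T} (H : Tri x N T) : (sH x N T).GS 3 3 4 (mkT edQ) := by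
  intro f ok ap h
  have ne : ∀ i j, 3 ≤ i ∧ i < 7 ∧ j < 7 ∧ i ≠ j → f i ≠ f j ∧ f j ≠ f i := fun i j h =>
    have := ap i h.2.1 j h.2.2.1 h.2.2.2 (.inl h.1)
    ⟨fun e => this (by rw [e]), fun e => this (by rw [e])⟩
  simp only [Sem.sat, mkT, edQ, sH, List.map_cons, List.map_nil, List.forall_mem_cons] at h ok
  obtain ⟨h1, h2, h3, h4, h5, h6, -⟩ := h
  have c := fun i j k (h : i < 7 ∧ j < 7 ∧ k < 7) => H.col _ (ok i h.1) _ (ok j h.2.1) _ (ok k h.2.2)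
  have t := fun e f' g a b d i j k (h : i < 7 ∧ j < 7 ∧ k < 7) =>
    H.tri e f' g a b d _ (ok i h.1) _ (ok j h.2.1) _ (ok k h.2.2)
  exact fano (c _ _ _ (by simp) h1) (c _ _ _ (by simp) h2) (c _ _ _ (by simp) h3)
    (c _ _ _ (by simp) h4) (c _ _ _ (by simp) h5) (c _ _ _ (by simp) h6)
    (t _ _ _ h1 h6 h3 _ _ _ (by simp) (by simp [ne]) (by simp [ne]) (by simp [ne]))
    (t _ _ _ h1 h4 h5 _ _ _ (by simp) (by simp [ne]) (by simp [ne]) (by simp [ne]))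
    (t _ _ _ h3 h2 h5 _ _ _ (by simp) (by simp [ne]) (by simp [ne]) (by simp [ne]))
    (t _ _ _ h6 h2 h4 _ _ _ (by simp) (by simp [ne]) (by simp [ne]) (by simp [ne]))

theorem d_s {x N T} (H : Tri x N T) : (sH x N T).GS 2 3 7 (mkT edD) := by
  intro f ok ap h
  have nx : ∀ i j, 3 ≤ i ∧ i < 10 ∧ j < 10 ∧ i ≠ j → x (f i) ≠ x (f j) := fun i j h =>
    ap i h.2.1 j h.2.2.1 h.2.2.2 (.inl h.1)
  have ne : ∀ i j, 3 ≤ i ∧ i < 10 ∧ j < 10 ∧ i ≠ j → f i ≠ f j ∧ f j ≠ f i := fun i j h =>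
    ⟨fun e => nx i j h (by rw [e]), fun e => nx i j h (by rw [e])⟩
  simp only [Sem.sat, mkT, edD, sH, List.map_cons, List.map_nil, List.forall_mem_cons] at h ok
  obtain ⟨h1, h2, h3, h4, h5, h6, h7, h8, h9, -⟩ := h
  have c := fun i j k (h : i < 10 ∧ j < 10 ∧ k < 10) =>
    H.col _ (ok i h.1) _ (ok j h.2.1) _ (ok k h.2.2)
  have t := fun e f' g a b d i j k (h : i < 10 ∧ j < 10 ∧ k < 10) =>
    H.tri e f' g a b d _ (ok i h.1) _ (ok j h.2.1) _ (ok k h.2.2)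
  exact des (c _ _ _ (by simp) h1) (c _ _ _ (by simp) h2) (c _ _ _ (by simp) h3)
    (c _ _ _ (by simp) h4) (c _ _ _ (by simp) h5) (c _ _ _ (by simp) h6) (c _ _ _ (by simp) h7)
    (c _ _ _ (by simp) h8) (c _ _ _ (by simp) h9)
    (t _ _ _ h1 h4 h2 _ _ _ (by simp) (by simp [ne]) (by simp [ne]) (by simp [ne]))
    (t _ _ _ h2 h6 h3 _ _ _ (by simp) (by simp [ne]) (by simp [ne]) (by simp [ne]))
    (t _ _ _ h1 h8 h3 _ _ _ (by simp) (by simp [ne]) (by simp [ne]) (by simp [ne]))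
    (nx _ _ (by simp)) (nx _ _ (by simp)) (nx _ _ (by simp)) (nx _ _ (by simp))

end Pool.Agent.H38.Hyp
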